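import Pool.Agent.Helper37.KDB.Extra
import Pool.Agent.Helper37.KDB.St.C2
import Pool.Agent.Helper37.KDB.St.C3
import Pool.Agent.Helper37.KDB.St.C4
import Pool.Agent.Helper37.KDB.St.L2

/-! Project KDB, piece C5. -/

set_option autoImplicit false

namespace KDB.I.C5

open MeasureTheory KDB
open scoped ENNReal

variable (p : Par)

lemma exp_prod_le {ι : Type*} (s : Finset ι) (a : ι → ℝ) (w : ι → ℝ≥0∞)
    (h : ∀ i ∈ s, ENNReal.ofReal (Real.exp (-a i)) ≤ w i) :
    ENNReal.ofReal (Real.exp (-∑ i ∈ s, a i)) ≤ ∏ i ∈ s, w i := by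
  rw [← Finset.sum_neg_distrib, Real.exp_sum,
    ENNReal.ofReal_prod_of_nonneg fun i _ => (Real.exp_pos _).le]
  exact Finset.prod_le_prod' h

lemma exp_mul_le {a b : ℝ} {v w : ℝ≥0∞} (ha : ENNReal.ofReal (Real.exp (-a)) ≤ v)
    (hb : ENNReal.ofReal (Real.exp (-b)) ≤ w) :
    ENNReal.ofReal (Real.exp (-(a + b))) ≤ v * w := by
  rw [neg_add, Real.exp_add, ENNReal.ofReal_mul (Real.exp_pos _).le]
  exact mul_le_mul' ha hb

/-- the cost of the transition of level `i` -/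
noncomputable def ct (om : ℕ → Nz p.d) (t : ℕ) (c : ℕ → ℕ) (i : ℕ) : ℝ :=
  if t < MM * p.tau (i + 1) then 0
  else if c i = 0 then 2 * p.d * Real.log p.ell + p.d * Real.log (16 * p.L)
  else 1 + 3 * p.d + 2 * p.d * Real.log p.CR +
    p.nring om i (p.cand t i (c i) - p.tau i) (p.cand t i (c i) + p.W i) * (1 + 2 * p.d)

lemma ct_spec (hp : p.Ok) (om : ℕ → Nz p.d) (t : ℕ) (c : ℕ → ℕ) (i : ℕ) :
    ENNReal.ofReal (Real.exp (-ct p om t c i)) ≤ p.cT (p.tty t c i) (p.tc om t c i) := by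
  unfold ct Par.tty Par.tc
  by_cases h1 : t < MM * p.tau (i + 1)
  · rw [if_pos h1, if_pos h1, if_pos h1]
    unfold Par.cT
    rw [if_pos rfl, if_pos rfl, neg_zero, Real.exp_zero, ENNReal.ofReal_one]
  · rw [if_neg h1, if_neg h1, if_neg h1]
    by_cases h2 : c i = 0
    · rw [if_pos h2, if_pos h2, if_pos h2]
      exact tcL_cost p hp om i _
    · rw [if_neg h2, if_neg h2, if_neg h2]
      exact tcS_cost p hp om i _

/-- the cost of a jump in a block -/
noncomputable def Fj (om : ℕ → Nz p.d) (m j : ℕ) : ℝ :=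
  if m < p.lv (om j) then p.ec om m j + (1 + 4 * p.d) else 0

/-- the relative noise of a step -/
noncomputable def Sj (om : ℕ → Nz p.d) (m j : ℕ) : ℝ :=
  if p.lv (om j) ≤ m then p.sz (om j) / p.rho m else 0

lemma rho_pos (hp : p.Ok) (m : ℕ) : 0 < p.rho m := by
  unfold Par.rho Par.ell
  have := hp.hL
  have : 0 < p.L := by omega
  positivity

lemma sz_nonneg (z : Nz p.d) : 0 ≤ p.sz z := by
  unfold Par.sz
  split_ifs
  · exact le_rfl
  · exact norm_nonneg _
  · unfold Par.rho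
    positivity

lemma ec_nonneg (om : ℕ → Nz p.d) (m j : ℕ) : 0 ≤ p.ec om m j := by
  have h1 := Real.log_natCast_nonneg p.ell
  have h2 := Real.log_natCast_nonneg p.L
  unfold Par.ec
  positivity

lemma Fj_nonneg (om : ℕ → Nz p.d) (m j : ℕ) : 0 ≤ Fj p om m j := by
  unfold Fj
  have := ec_nonneg p om m j
  split_ifs <;> positivity

lemma Sj_nonneg (hp : p.Ok) (om : ℕ → Nz p.d) (m j : ℕ) : 0 ≤ Sj p om m j := by
  unfold Sj
  have := sz_nonneg p (om j)
  have := rho_pos p hp m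
  split_ifs <;> positivity

lemma gp_le (t : ℕ) (c : ℕ → ℕ) (i k : ℕ) : p.gp t c i k ≤ p.gp t c i (k + 1) := by
  unfold Par.gp
  refine min_le_min ?_ le_rfl
  rw [add_mul]
  omega

lemma gp_le' (t : ℕ) (c : ℕ → ℕ) (i k : ℕ) : p.gp t c i (k + 1) ≤ p.gp t c i k + p.tau i := by
  unfold Par.gp
  rw [add_mul, one_mul]
  omega

lemma blk_spec (hp : p.Ok) (om : ℕ → Nz p.d) (t : ℕ) (c : ℕ → ℕ) (i k : ℕ) (hi : i < p.n) :
    ENNReal.ofReal (Real.exp (-(∑ j ∈ Finset.Ico (p.gp t c i k) (p.gp t c i (k + 1)), Fj p om i j +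
      (2 + 12 * p.d) + (1 + 4 * p.d) *
        (1 + ∑ j ∈ Finset.Ico (p.gp t c i k) (p.gp t c i (k + 1)), Sj p om i j)))) ≤
      p.cB (p.blk om i (p.gp t c i k) (p.gp t c i (k + 1))) := by
  have h := blk_cost p hp om i (p.gp t c i k) (p.gp t c i (k + 1)) hi (gp_le p t c i k)
    (gp_le' p t c i k)
  have h1 : p.nse om i (p.gp t c i k) (p.gp t c i (k + 1)) / p.rho i =
      ∑ j ∈ Finset.Ico (p.gp t c i k) (p.gp t c i (k + 1)), Sj p om i j := by
    unfold Par.nse Sj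
    rw [Finset.sum_div]
    refine Finset.sum_congr rfl fun j _ => ?_
    rw [ite_div, zero_div]
  rw [h1] at h
  exact h

/-- the number of velocity digits of a jump -/
noncomputable def yj (om : ℕ → Nz p.d) (t j : ℕ) : ℕ :=
  if (om j).lab = 1 then p.lv (om j) - p.mst t j else p.lv (om j) - 1 - p.b - p.mst t j

/-- bound for the cost of a jump in its stage -/
noncomputable def Gj (om : ℕ → Nz p.d) (t j : ℕ) : ℝ :=
  if p.mst t j < p.lv (om j) then
    p.d * Real.log p.ell * yj p om t j + (Real.log p.ell + 1) * (yj p om t j + (p.b + 1)) +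
      (Real.log p.L + 5 + 24 * p.d) + (1 + 4 * p.d) else 0

lemma Gj_nonneg (om : ℕ → Nz p.d) (t j : ℕ) : 0 ≤ Gj p om t j := by
  have h1 := Real.log_natCast_nonneg p.ell
  have h2 := Real.log_natCast_nonneg p.L
  unfold Gj
  split_ifs <;> positivity

lemma Fj_le (om : ℕ → Nz p.d) (t i j : ℕ) (h : p.mst t j ≤ i) : Fj p om i j ≤ Gj p om t j := by
  have h1 := Real.log_natCast_nonneg p.ell
  have h2 := Real.log_natCast_nonneg p.L
  unfold Fj
  split_ifs with hi
  · unfold Gj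
    rw [if_pos (by omega)]
    unfold Par.ec
    have hb : p.b = p.q + 1 := rfl
    have hu : (if (om j).lab = 1 then p.lv (om j) - 1 - i + 1 else p.lv (om j) - 1 - i - p.b) ≤
        yj p om t j := by
      unfold yj
      split_ifs <;> omega
    have hk : p.lv (om j) - 1 - i + 1 ≤ yj p om t j + (p.b + 1) := by
      unfold yj
      split_ifs <;> omega
    have hu' : ((if (om j).lab = 1 then p.lv (om j) - 1 - i + 1 else
        p.lv (om j) - 1 - i - p.b : ℕ) : ℝ) ≤ (yj p om t j : ℝ) := by exact_mod_cast hu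
    have hk' : ((p.lv (om j) - 1 - i : ℕ) : ℝ) + 1 ≤ (yj p om t j : ℝ) + (p.b + 1) := by
      exact_mod_cast hk
    have e1 : (p.d : ℝ) * Real.log p.ell * ((if (om j).lab = 1 then p.lv (om j) - 1 - i + 1 else
        p.lv (om j) - 1 - i - p.b : ℕ) : ℝ) ≤ p.d * Real.log p.ell * yj p om t j :=
      mul_le_mul_of_nonneg_left hu' (by positivity)
    have e2 : (((p.lv (om j) - 1 - i : ℕ) : ℝ) + 1) * (Real.log p.ell + 1) ≤
        (Real.log p.ell + 1) * ((yj p om t j : ℝ) + (p.b + 1)) := by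
      rw [mul_comm]
      exact mul_le_mul_of_nonneg_left hk' (by positivity)
    dsimp only
    linarith
  · exact Gj_nonneg p om t j

/-- sums over the blocks -/
lemma sum_F_le (hp : p.Ok) (om : ℕ → Nz p.d) (t : ℕ) (ht : t ≤ p.tau p.n) (c : ℕ → ℕ)
    (hc : ∀ i, c i ≤ 49) :
    ∑ i ∈ Finset.range p.n, ∑ k ∈ Finset.range (MM * p.L),
      ∑ j ∈ Finset.Ico (p.gp t c i k) (p.gp t c i (k + 1)), Fj p om i j ≤
    ∑ j ∈ Finset.range t, Gj p om t j := by
  refine (stage_sum_le p hp t ht c hc (Fj p om) (Fj_nonneg p om)).trans ?_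
  refine Finset.sum_le_sum fun j _ => ?_
  by_cases hex : ∃ i ∈ Finset.range p.n, p.Sx t c i ≤ j ∧ j < p.Ex t c i
  · obtain ⟨i, hi, h1, h2⟩ := hex
    rw [Finset.sum_eq_single_of_mem i hi]
    · rw [if_pos ⟨h1, h2⟩]
      exact Fj_le p om t i j (mst_le p hp t ht c hc i j (Finset.mem_range.1 hi) h1 h2)
    · intro i' hi' hne
      rw [if_neg]
      rintro ⟨h1', h2'⟩
      exact hne (stage_unique p hp t ht c hc i' i j (Finset.mem_range.1 hi')
        (Finset.mem_range.1 hi) h1' h2' h1 h2)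
  · rw [Finset.sum_eq_zero]
    · exact Gj_nonneg p om t j
    · intro i hi
      rw [if_neg fun h => hex ⟨i, hi, h⟩]

lemma sum_S_le (hp : p.Ok) (om : ℕ → Nz p.d) (t : ℕ) (ht : t ≤ p.tau p.n) (c : ℕ → ℕ)
    (hc : ∀ i, c i ≤ 49) :
    ∑ i ∈ Finset.range p.n, ∑ k ∈ Finset.range (MM * p.L),
      ∑ j ∈ Finset.Ico (p.gp t c i k) (p.gp t c i (k + 1)), Sj p om i j ≤ p.Nf om t := by
  refine (stage_sum_le p hp t ht c hc (Sj p om) (Sj_nonneg p hp om)).trans ?_
  unfold Par.Nf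
  refine Finset.sum_le_sum fun j _ => Finset.sum_le_sum fun i hi => ?_
  have hsz := sz_nonneg p (om j)
  have hrho := rho_pos p hp i
  have hS := Sj_nonneg p hp om i j
  by_cases h1 : p.Sx t c i ≤ j ∧ j < p.Ex t c i
  · rw [if_pos h1]
    have h2 := mst_le p hp t ht c hc i j (Finset.mem_range.1 hi) h1.1 h1.2
    unfold Sj
    by_cases h3 : p.lv (om j) ≤ i
    · rw [if_pos h3, if_pos ⟨h2, h3⟩]
    · rw [if_neg h3, if_neg fun h => h3 h.2]
  · rw [if_neg h1]
    split_ifs <;> positivity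

lemma sum_G (om : ℕ → Nz p.d) (t : ℕ) :
    ∑ j ∈ Finset.range t, Gj p om t j ≤ p.d * Real.log p.ell * p.Yf om t +
      (Real.log p.ell + 1) * (p.Yf om t + (p.b + 1) * p.nuf om t) +
      p.nuf om t * (Real.log p.L + 5 + 24 * p.d) + (1 + 4 * p.d) * p.nuf om t := by
  have h1 := Real.log_natCast_nonneg p.ell
  have hnu : (p.nuf om t : ℝ) = ∑ j ∈ Finset.range t,
      if p.mst t j < p.lv (om j) then (1 : ℝ) else 0 := by
    unfold Par.nuf
    rw [Finset.card_filter]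
    push_cast
    rfl
  have hY : (p.Yf om t : ℝ) = ∑ j ∈ Finset.range t, (yj p om t j : ℝ) := by
    unfold Par.Yf yj
    push_cast
    rfl
  rw [hnu, hY]
  simp only [Finset.mul_sum, Finset.sum_mul, ← Finset.sum_add_distrib]
  refine Finset.sum_le_sum fun j _ => ?_
  unfold Gj
  split_ifs
  · apply le_of_eq
    ring
  · rw [mul_zero, mul_zero, zero_mul, add_zero, add_zero, add_zero]
    positivity

/-- the own rings of the settled levels -/
lemma sum_nring (hp : p.Ok) (om : ℕ → Nz p.d) (t : ℕ) (c : ℕ → ℕ) (hc : ∀ i, c i ≤ 49) :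
    ∑ i ∈ (Finset.range p.n).filter (fun i => ¬ t < MM * p.tau (i + 1) ∧ c i ≠ 0),
      p.nring om i (p.cand t i (c i) - p.tau i) (p.cand t i (c i) + p.W i) ≤ p.nuf om t := by
  unfold Par.nring Par.nuf
  rw [← Finset.card_biUnion]
  · refine Finset.card_le_card fun j hj => ?_
    rw [Finset.mem_biUnion] at hj
    obtain ⟨i, hi, hj⟩ := hj
    rw [Finset.mem_filter] at hi hj
    obtain ⟨hi1, hi2, hi3⟩ := hi
    obtain ⟨hj1, hj2⟩ := hj
    have h1 : 1 ≤ c i ∧ c i ≤ 49 := ⟨Nat.one_le_iff_ne_zero.2 hi3, hc i⟩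
    obtain ⟨-, h2, h3⟩ := cand_disj p hp t i (c i) (c i) j (not_lt.1 hi2) h1 h1 hj1 hj1
    rw [Finset.mem_filter, Finset.mem_range]
    refine ⟨h2, ?_⟩
    unfold Par.lv
    rw [hj2, if_neg (by omega), if_neg (by omega)]
    omega
  · intro i hi i' hi' hne
    rw [Function.onFun, Finset.disjoint_left]
    intro j hj hj'
    rw [Finset.mem_filter] at hj hj'
    omega

lemma sum_ct (hp : p.Ok) (om : ℕ → Nz p.d) (t : ℕ) (c : ℕ → ℕ) (hc : ∀ i, c i ≤ 49) :
    ∑ i ∈ Finset.range p.n, ct p om t c i ≤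
      p.lostf t c * (2 * p.d * Real.log p.ell + p.d * Real.log (16 * p.L)) +
      p.n * (1 + 3 * p.d + 2 * p.d * Real.log p.CR) + p.nuf om t * (1 + 2 * p.d) := by
  have h1 := Real.log_natCast_nonneg p.ell
  have h2 := Real.log_natCast_nonneg p.CR
  have h3 : 0 ≤ Real.log (16 * (p.L : ℝ)) := by
    have := Real.log_natCast_nonneg (16 * p.L)
    push_cast at this
    exact this
  have hl : (p.lostf t c : ℝ) = ∑ i ∈ Finset.range p.n,
      if MM * p.tau (i + 1) ≤ t ∧ c i = 0 then (1 : ℝ) else 0 := by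
    unfold Par.lostf
    rw [Finset.card_filter]
    push_cast
    rfl
  have hn : (p.n : ℝ) = ∑ i ∈ Finset.range p.n, (1 : ℝ) := by
    rw [Finset.sum_const, Finset.card_range, nsmul_eq_mul, mul_one]
  have hr : (∑ i ∈ Finset.range p.n, if ¬ t < MM * p.tau (i + 1) ∧ c i ≠ 0 then
      (p.nring om i (p.cand t i (c i) - p.tau i) (p.cand t i (c i) + p.W i) : ℝ) else 0) ≤
      p.nuf om t := by
    rw [← Finset.sum_filter]
    exact_mod_cast sum_nring p hp om t c hc
  have hr' := mul_le_mul_of_nonneg_right hr (show (0 : ℝ) ≤ 1 + 2 * p.d by positivity)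
  refine le_trans ?_ (add_le_add_right hr' _)
  rw [hl, hn]
  simp only [Finset.sum_mul, ← Finset.sum_add_distrib]
  refine Finset.sum_le_sum fun i _ => ?_
  unfold ct
  by_cases h4 : t < MM * p.tau (i + 1)
  · rw [if_pos h4, if_neg (fun h => not_lt.2 h.1 h4), if_neg (fun h => h.1 h4)]
    positivity
  · rw [if_neg h4]
    by_cases h5 : c i = 0
    · rw [if_pos h5, if_pos ⟨not_lt.1 h4, h5⟩, if_neg (fun h => h.2 h5), one_mul, zero_mul,
        add_zero]
      have : 0 ≤ 1 * (1 + 3 * (p.d : ℝ) + 2 * p.d * Real.log p.CR) := by positivity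
      linarith
    · rw [if_neg h5, if_neg (fun h => h5 h.2), if_pos ⟨h4, h5⟩, zero_mul, zero_add, one_mul]

lemma sum_shape {m : ℕ} (f g : Fin m → ℝ) (A B C : ℝ) :
    ∑ i, (f i + A + B * (C + g i)) = ∑ i, f i + m * A + B * (m * C + ∑ i, g i) := by
  rw [Finset.sum_add_distrib, Finset.sum_add_distrib, ← Finset.mul_sum, Finset.sum_add_distrib,
    Finset.sum_const, Finset.sum_const, Finset.card_univ, Fintype.card_fin, nsmul_eq_mul,
    nsmul_eq_mul]

theorem cost_le (hp : p.Ok) (om : ℕ → Nz p.d) (hv : ∀ j, p.Valid j (om j)) (t : ℕ)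
    (ht : t ≤ p.tau p.n) (c : ℕ → ℕ) (hc : ∀ i, c i ≤ 49) (h1 : p.Compat om t c) :
    ENNReal.ofReal (Real.exp (-p.cost om t c)) ≤ p.cF t c (p.fcode om t c) := by
  have key : ENNReal.ofReal (Real.exp (-∑ i : Fin p.n, (ct p om t c i + ∑ k : Fin (MM * p.L),
      (∑ j ∈ Finset.Ico (p.gp t c i k) (p.gp t c i (k + 1)), Fj p om i j +
      (2 + 12 * p.d) + (1 + 4 * p.d) *
        (1 + ∑ j ∈ Finset.Ico (p.gp t c i k) (p.gp t c i (k + 1)), Sj p om i j))))) ≤
      p.cF t c (p.fcode om t c) := by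
    unfold Par.cF Par.fcode
    refine exp_prod_le _ _ _ fun i _ => ?_
    refine exp_mul_le (ct_spec p hp om t c i) ?_
    exact exp_prod_le _ _ _ fun k _ => blk_spec p hp om t c i k i.2
  refine le_trans (ENNReal.ofReal_le_ofReal (Real.exp_le_exp.2 (neg_le_neg ?_))) key
  rw [Finset.sum_add_distrib]
  have e1 : ∑ i : Fin p.n, ct p om t c i = ∑ i ∈ Finset.range p.n, ct p om t c i :=
    Fin.sum_univ_eq_sum_range (fun i => ct p om t c i) p.n
  have e2 : ∑ i : Fin p.n, ∑ k : Fin (MM * p.L),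
      (∑ j ∈ Finset.Ico (p.gp t c i k) (p.gp t c i (k + 1)), Fj p om i j +
      (2 + 12 * (p.d : ℝ)) + (1 + 4 * p.d) *
        (1 + ∑ j ∈ Finset.Ico (p.gp t c i k) (p.gp t c i (k + 1)), Sj p om i j)) =
      ∑ i ∈ Finset.range p.n, ∑ k ∈ Finset.range (MM * p.L),
        ∑ j ∈ Finset.Ico (p.gp t c i k) (p.gp t c i (k + 1)), Fj p om i j +
      50 * p.L * p.n * (2 + 12 * p.d) + (1 + 4 * p.d) * (50 * p.L * p.n +
        ∑ i ∈ Finset.range p.n, ∑ k ∈ Finset.range (MM * p.L),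
          ∑ j ∈ Finset.Ico (p.gp t c i k) (p.gp t c i (k + 1)), Sj p om i j) := by
    rw [← Fin.sum_univ_eq_sum_range (fun i => ∑ k ∈ Finset.range (MM * p.L),
        ∑ j ∈ Finset.Ico (p.gp t c i k) (p.gp t c i (k + 1)), Fj p om i j) p.n,
      ← Fin.sum_univ_eq_sum_range (fun i => ∑ k ∈ Finset.range (MM * p.L),
        ∑ j ∈ Finset.Ico (p.gp t c i k) (p.gp t c i (k + 1)), Sj p om i j) p.n]
    have e3 : ∀ i : Fin p.n, ∑ k : Fin (MM * p.L),
        (∑ j ∈ Finset.Ico (p.gp t c i k) (p.gp t c i (k + 1)), Fj p om i j +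
        (2 + 12 * (p.d : ℝ)) + (1 + 4 * p.d) *
          (1 + ∑ j ∈ Finset.Ico (p.gp t c i k) (p.gp t c i (k + 1)), Sj p om i j)) =
        ∑ k ∈ Finset.range (MM * p.L),
          ∑ j ∈ Finset.Ico (p.gp t c i k) (p.gp t c i (k + 1)), Fj p om i j +
        50 * p.L * (2 + 12 * p.d) + (1 + 4 * p.d) * (50 * p.L +
          ∑ k ∈ Finset.range (MM * p.L),
            ∑ j ∈ Finset.Ico (p.gp t c i k) (p.gp t c i (k + 1)), Sj p om i j) := by
      intro i
      rw [sum_shape,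
        ← Fin.sum_univ_eq_sum_range (fun k =>
          ∑ j ∈ Finset.Ico (p.gp t c i k) (p.gp t c i (k + 1)), Fj p om i j) (MM * p.L),
        ← Fin.sum_univ_eq_sum_range (fun k =>
          ∑ j ∈ Finset.Ico (p.gp t c i k) (p.gp t c i (k + 1)), Sj p om i j) (MM * p.L)]
      have hMM : ((MM * p.L : ℕ) : ℝ) = 50 * p.L := by
        unfold MM
        push_cast
        ring
      rw [hMM]
      ring
    rw [Finset.sum_congr rfl fun i _ => e3 i, sum_shape]
    ring
  rw [e1, e2]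
  have f1 := sum_ct p hp om t c hc
  have f2 := sum_F_le p hp om t ht c hc
  have f3 := sum_S_le p hp om t ht c hc
  have f4 := sum_G p om t
  have f5 := mul_le_mul_of_nonneg_left f3 (show (0 : ℝ) ≤ 1 + 4 * p.d by positivity)
  unfold Par.cost
  dsimp only
  linarith

end KDB.I.C5
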