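import Pool.Agent.Helper37.KDB.Extra
import Pool.Agent.Helper37.KDB.St.P11
import Pool.Agent.Helper37.KDB.St.P12
import Pool.Agent.Helper37.KDB.St.D17

/-! Project KDB, piece P16. -/

set_option autoImplicit false

namespace KDB.I.P16

open MeasureTheory KDB
open scoped ENNReal

variable (p : Par)

/-- the candidate windows -/
def idx (t : ℕ) : Finset (ℕ × ℕ × Bool) :=
  ((Finset.range p.n).filter fun i => MM * p.tau (i + 1) ≤ t) ×ˢ
    (Finset.Icc 1 49 ×ˢ (Finset.univ : Finset Bool))

/-- level and start of a window -/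
def win (t : ℕ) (x : ℕ × ℕ × Bool) : ℕ × ℕ :=
  (x.1, if x.2.2 = true then p.cand t x.1 x.2.1 else p.cand t x.1 x.2.1 - p.tau x.1)

/-- no positive own ring in the window -/
def bad (om : ℕ → Nz p.d) (y : ℕ × ℕ) : Prop :=
  ∀ j ∈ Finset.Ico y.2 (y.2 + p.W y.1), ¬ ((om j).lab = y.1 + 2 ∧ (om j).sb = true)

open Classical in
lemma failf_eq (om : ℕ → Nz p.d) (t : ℕ) :
    p.failf om t = ((idx p t).filter fun x => bad p om (win p t x)).card := by
  rw [Finset.card_filter]
  unfold idx
  rw [Finset.sum_product]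
  unfold Par.failf
  refine Finset.sum_congr rfl fun i _ => ?_
  rw [Finset.sum_product]
  refine Finset.sum_congr rfl fun a _ => ?_
  rw [Fintype.sum_bool, add_comm]
  have h1 : ∀ (y : ℕ × ℕ), (if ∃ j ∈ Finset.Ico y.2 (y.2 + p.W y.1),
      (om j).lab = y.1 + 2 ∧ (om j).sb = true then 0 else 1) = if bad p om y then 1 else 0 := by
    intro y
    unfold bad
    by_cases h : ∃ j ∈ Finset.Ico y.2 (y.2 + p.W y.1), (om j).lab = y.1 + 2 ∧ (om j).sb = true
    · rw [if_pos h, if_neg]
      push Not
      exact h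
    · rw [if_neg h, if_pos]
      push Not at h ⊢
      exact h
  congr 1
  · exact h1 (i, p.cand t i a)
  · exact h1 (i, p.cand t i a - p.tau i)

lemma W_le (hp : p.Ok) (i : ℕ) : p.W i ≤ p.tau i := by
  unfold Par.W Par.tau
  refine Nat.mul_le_mul_left _ (Nat.pow_le_pow_right ?_ (Nat.le_add_right i p.q))
  have := hp.hL
  omega

lemma W_pos (hp : p.Ok) (i : ℕ) : 0 < p.W i := by
  unfold Par.W
  have := hp.hL
  have := hp.hH
  have : 0 < p.L := by omega
  positivity

lemma tau_succ (i : ℕ) : p.tau (i + 1) = p.L * p.tau i := by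
  unfold Par.tau
  rw [show i + 1 + p.q = i + p.q + 1 by omega, pow_succ]
  ring

lemma cand_eq (t i a : ℕ) (ha : 1 ≤ a) :
    p.cand t i a = p.cand t i 1 + (a - 1) * p.tau (i + 1) := by
  unfold Par.cand
  simp only [Nat.sub_self, zero_mul, add_zero]

/-- different windows of the same level are disjoint -/
lemma win_disj (hp : p.Ok) (t : ℕ) {x y : ℕ × ℕ × Bool} (hx : x ∈ idx p t) (hy : y ∈ idx p t)
    (h : x.1 = y.1) (hne : x ≠ y) :
    (win p t x).2 + p.tau x.1 ≤ (win p t y).2 ∨ (win p t y).2 + p.tau x.1 ≤ (win p t x).2 := by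
  obtain ⟨i, a, β⟩ := x
  obtain ⟨i', a', β'⟩ := y
  simp only at h
  subst h
  unfold idx at hx hy
  simp only [Finset.mem_product, Finset.mem_filter, Finset.mem_range, Finset.mem_Icc,
    Finset.mem_univ, and_true] at hx hy
  have h0 := cand_spec p hp t i 1 hx.1.2 le_rfl (by norm_num)
  have h1 := cand_eq p t i a hx.2.1
  have h2 := cand_eq p t i a' hy.2.1
  have hτ := tau_succ p i
  have hL := hp.hL
  have h3 : 1000 * p.tau i ≤ p.tau (i + 1) := by
    rw [hτ]
    exact Nat.mul_le_mul_right _ hL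
  unfold win
  simp only
  have key : a < a' → p.cand t i a + 1000 * p.tau i ≤ p.cand t i a' := by
    intro hlt
    rw [h1, h2]
    have h5 : (a - 1) * p.tau (i + 1) + p.tau (i + 1) ≤ (a' - 1) * p.tau (i + 1) := by
      have : (a - 1) * p.tau (i + 1) + p.tau (i + 1) = (a - 1 + 1) * p.tau (i + 1) := by ring
      rw [this]
      exact Nat.mul_le_mul_right _ (by omega)
    omega
  have key' : a' < a → p.cand t i a' + 1000 * p.tau i ≤ p.cand t i a := by
    intro hlt
    rw [h1, h2]
    have h5 : (a' - 1) * p.tau (i + 1) + p.tau (i + 1) ≤ (a - 1) * p.tau (i + 1) := by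
      have : (a' - 1) * p.tau (i + 1) + p.tau (i + 1) = (a' - 1 + 1) * p.tau (i + 1) := by ring
      rw [this]
      exact Nat.mul_le_mul_right _ (by omega)
    omega
  have h6 : p.tau i ≤ p.cand t i a := by
    rw [h1]
    omega
  have h7 : p.tau i ≤ p.cand t i a' := by
    rw [h2]
    omega
  rcases lt_trichotomy a a' with hlt | heq | hgt
  · have := key hlt
    left
    split_ifs <;> omega
  · subst heq
    have hβ : β ≠ β' := fun h => hne (by rw [h])
    cases β <;> cases β' <;> simp_all
  · have := key' hgt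
    right
    split_ifs <;> omega

lemma win_inj (hp : p.Ok) (t : ℕ) {x y : ℕ × ℕ × Bool} (hx : x ∈ idx p t) (hy : y ∈ idx p t)
    (h : win p t x = win p t y) : x = y := by
  by_contra hne
  have h1 : x.1 = y.1 := congrArg (fun z : ℕ × ℕ => z.1) h
  have h2 := win_disj p hp t hx hy h1 hne
  rw [h] at h2
  have h3 := W_pos p hp x.1
  have h4 := W_le p hp x.1
  omega

lemma card_idx (t : ℕ) : (idx p t).card ≤ 98 * p.n := by
  unfold idx
  rw [Finset.card_product, Finset.card_product, Nat.card_Icc, Finset.card_univ, Fintype.card_bool]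
  have := Finset.card_filter_le (Finset.range p.n) fun i => MM * p.tau (i + 1) ≤ t
  rw [Finset.card_range] at this
  omega

theorem prob_fail (hp : p.Reg) (hH : p.Hok) (N t : ℕ) (ht : t ≤ N) (htn : t ≤ p.tau p.n) :
    p.pathLaw N {om | (p.n : ℝ) < p.failf (p.exte N om) t} ≤
      ENNReal.ofReal ((p.L : ℝ) ^ (-(7 / 5 : ℝ) * p.n)) := by
  classical
  have hok : p.Ok := hp.toOk
  -- one choice of windows
  have hone : ∀ S ∈ (idx p t).powersetCard p.n,
      p.pathLaw N {om | ∀ y ∈ S.image (win p t), bad p (p.exte N om) y} ≤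
        ENNReal.ofReal (Real.exp (-(p.n * (p.mu / 4)))) := by
    intro S hS
    obtain ⟨hSi, hSc⟩ := Finset.mem_powersetCard.1 hS
    have hmem : ∀ x ∈ S, (x.1 < p.n ∧ MM * p.tau (x.1 + 1) ≤ t) ∧ 1 ≤ x.2.1 ∧ x.2.1 ≤ 49 := by
      intro x hx
      have := hSi hx
      unfold idx at this
      simp only [Finset.mem_product, Finset.mem_filter, Finset.mem_range, Finset.mem_Icc,
        Finset.mem_univ, and_true] at this
      exact this
    have hspec : ∀ x ∈ S, (win p t x).2 + p.W x.1 ≤ N := by
      intro x hx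
      obtain ⟨⟨h1, h2⟩, h3, h4⟩ := hmem x hx
      obtain ⟨-, h5, h6, -⟩ := cand_spec p hok t x.1 x.2.1 h2 h3 h4
      unfold win
      simp only
      split_ifs <;> omega
    have hno := no_ring p hok hH N (S.image (win p t)) (by
      intro y hy
      obtain ⟨x, hx, rfl⟩ := Finset.mem_image.1 hy
      exact ⟨(hmem x hx).1.1, hspec x hx⟩) (by
      intro y hy y' hy' h1 h2
      obtain ⟨x, hx, rfl⟩ := Finset.mem_image.1 hy
      obtain ⟨x', hx', rfl⟩ := Finset.mem_image.1 hy'
      have h3 : x ≠ x' := fun h => h2 (by rw [h])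
      have h4 := win_disj p hok t (hSi hx) (hSi hx') h1 h3
      have h5 := W_le p hok x.1
      have h6 : x.1 = x'.1 := h1
      rw [Finset.disjoint_left]
      intro j hj hj'
      rw [Finset.mem_Ico] at hj hj'
      have h7 : (win p t x).1 = x.1 := rfl
      have h8 : (win p t x').1 = x.1 := h6.symm
      rw [h7] at hj
      rw [h8] at hj'
      omega)
    refine hno.trans (ENNReal.ofReal_le_ofReal (Real.exp_le_exp.2 (neg_le_neg ?_)))
    rw [Finset.sum_image (fun x hx y hy h => win_inj p hok t (hSi hx) (hSi hy) h)]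
    have hlow : ∀ x ∈ S, p.mu / 4 ≤ ∑ j ∈ Finset.Ico (win p t x).2
        ((win p t x).2 + p.W (win p t x).1), p.pring (win p t x).1 j / 2 := by
      intro x hx
      obtain ⟨⟨h1, h2⟩, h3, h4⟩ := hmem x hx
      obtain ⟨h5, h6, -, -⟩ := cand_spec p hok t x.1 x.2.1 h2 h3 h4
      obtain ⟨h7, h8⟩ := ring_lower p hp hH x.1 (p.cand t x.1 x.2.1) h1 h5 (by omega)
      rw [← Finset.sum_div]
      unfold win
      simp only
      split_ifs
      · linarith
      · linarith
    have h9 := Finset.card_nsmul_le_sum S _ _ hlow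
    rw [hSc, nsmul_eq_mul] at h9
    exact h9
  -- union bound
  have hsub : {om | (p.n : ℝ) < p.failf (p.exte N om) t} ⊆
      ⋃ S ∈ (idx p t).powersetCard p.n,
        {om | ∀ y ∈ S.image (win p t), bad p (p.exte N om) y} := by
    intro om hom
    rw [Set.mem_setOf_eq, failf_eq] at hom
    have h1 : p.n ≤ ((idx p t).filter fun x => bad p (p.exte N om) (win p t x)).card := by
      have : p.n < ((idx p t).filter fun x => bad p (p.exte N om) (win p t x)).card := by
        exact_mod_cast hom
      exact this.le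
    obtain ⟨S, hS, hSc⟩ := Finset.exists_subset_card_eq h1
    rw [Set.mem_iUnion₂]
    refine ⟨S, Finset.mem_powersetCard.2 ⟨hS.trans (Finset.filter_subset _ _), hSc⟩, ?_⟩
    intro y hy
    obtain ⟨x, hx, rfl⟩ := Finset.mem_image.1 hy
    exact (Finset.mem_filter.1 (hS hx)).2
  refine (measure_mono hsub).trans ((measure_biUnion_finset_le _ _).trans ?_)
  refine (Finset.sum_le_sum hone).trans ?_
  rw [Finset.sum_const, nsmul_eq_mul]
  have hcard : ((idx p t).powersetCard p.n).card ≤ 2 ^ (98 * p.n) := by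
    rw [Finset.card_powersetCard]
    refine (Nat.choose_le_two_pow _ _).trans ?_
    exact Nat.pow_le_pow_right (by norm_num) (card_idx p t)
  have hL : (0 : ℝ) < p.L := by
    have := hok.hL
    have : 0 < p.L := by omega
    exact_mod_cast this
  calc ((((idx p t).powersetCard p.n).card : ℕ) : ℝ≥0∞) *
        ENNReal.ofReal (Real.exp (-(p.n * (p.mu / 4))))
      ≤ ENNReal.ofReal ((2 : ℝ) ^ (98 * p.n)) *
        ENNReal.ofReal (Real.exp (-(p.n * (p.mu / 4)))) := by
        refine mul_le_mul' ?_ le_rfl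
        rw [← ENNReal.ofReal_natCast]
        refine ENNReal.ofReal_le_ofReal ?_
        exact_mod_cast hcard
    _ = ENNReal.ofReal ((2 : ℝ) ^ (98 * p.n) * Real.exp (-(p.n * (p.mu / 4)))) := by
        rw [ENNReal.ofReal_mul (by positivity)]
    _ ≤ ENNReal.ofReal ((p.L : ℝ) ^ (-(7 / 5 : ℝ) * p.n)) := by
        refine ENNReal.ofReal_le_ofReal ?_
        have h1 : (2 : ℝ) ^ (98 * p.n) = Real.exp (Real.log 2 * (98 * p.n)) := by
          rw [← Real.rpow_def_of_pos (by norm_num : (0 : ℝ) < 2), ← Real.rpow_natCast]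
          push_cast
          rfl
        rw [h1, ← Real.exp_add, Real.rpow_def_of_pos hL]
        refine Real.exp_le_exp.2 ?_
        have h2 := Real.log_two_lt_d9
        have h3 := hp.r2
        have h4 := hp.r1
        have h5 : (0 : ℝ) ≤ p.n := Nat.cast_nonneg _
        have h6 : Real.log 2 * (98 * p.n) + -(p.n * (p.mu / 4)) =
            p.n * (98 * Real.log 2 - p.mu / 4) := by ring
        have h7 : Real.log p.L * (-(7 / 5) * (p.n : ℝ)) = p.n * (-(7 / 5) * Real.log p.L) := by ring
        rw [h6, h7]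
        refine mul_le_mul_of_nonneg_left ?_ h5
        linarith

end KDB.I.P16
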